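import Mathlib

/-!
`P(ω)/fin` embeds into Lipschitz and into smooth reducibility on `D₂(Σ⁰₁)` subsets of `ℝ`.
-/

namespace Pool.Agent.Results.MP_b9d480_lc.Both

open Set Filter Topology Classical
open scoped ContDiff

/-- `A ≤_F B` -/
def Red (F : Set (ℝ → ℝ)) (A B : Set ℝ) : Prop := ∃ f ∈ F, A = f ⁻¹' B

/-- `D₂(Σ⁰₁)` sets -/
def D2 (A : Set ℝ) : Prop := ∃ U F : Set ℝ, IsOpen U ∧ IsClosed F ∧ A = U ∩ F

def Lip : Set (ℝ → ℝ) := {f | ∃ K, LipschitzWith K f}

def Smooth : Set (ℝ → ℝ) := {f | ContDiff ℝ ∞ f}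

/-- `P(ω)/fin` embeds into `≤_F` on `D₂(Σ⁰₁)` sets. -/
def Embeds (F : Set (ℝ → ℝ)) : Prop :=
  ∃ A : Set ℕ → Set ℝ, (∀ x, D2 (A x)) ∧ ∀ x y, (x \ y).Finite ↔ Red F (A x) (A y)

/-! ### Interpolation -/

noncomputable def σ : ℝ → ℝ := Real.smoothTransition

noncomputable def interp (h : ℤ → ℤ) (t : ℝ) : ℝ :=
  h ⌊t⌋ + (h (⌊t⌋ + 1) - h ⌊t⌋) * σ (t - ⌊t⌋)

noncomputable def loc (h : ℤ → ℤ) (a : ℤ) (t : ℝ) : ℝ :=
  h (a - 1) + (h a - h (a - 1)) * σ (t - (a - 1)) + (h (a + 1) - h a) * σ (t - a)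

lemma interp_loc (h : ℤ → ℤ) (t : ℝ) : interp h =ᶠ[𝓝 t] loc h ⌊t⌋ := by
  have h1 : (⌊t⌋ : ℝ) - 1 < t := by linarith [Int.floor_le t]
  filter_upwards [Ioo_mem_nhds h1 (Int.lt_floor_add_one t)] with s hs
  unfold interp loc
  rcases lt_or_ge s ⌊t⌋ with h2 | h2
  · have e : ⌊s⌋ = ⌊t⌋ - 1 := Int.floor_eq_iff.2 ⟨by push_cast; exact hs.1.le, by push_cast; linarith⟩
    have z : σ (s - ⌊t⌋) = 0 := Real.smoothTransition.zero_of_nonpos (by linarith)
    rw [e, z, sub_add_cancel]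
    push_cast
    ring
  · have e : ⌊s⌋ = ⌊t⌋ := Int.floor_eq_iff.2 ⟨h2, hs.2⟩
    have z : σ (s - (⌊t⌋ - 1)) = 1 := Real.smoothTransition.one_of_one_le (by linarith)
    rw [e, z]
    ring

lemma σ_smooth : ContDiff ℝ ∞ σ := Real.smoothTransition.contDiff

lemma interp_smooth (h : ℤ → ℤ) : ContDiff ℝ ∞ (interp h) := by
  rw [contDiff_iff_contDiffAt]
  intro t
  refine ContDiffAt.congr_of_eventuallyEq ?_ (interp_loc h t)
  have := σ_smooth
  apply ContDiff.contDiffAt
  unfold loc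
  fun_prop

lemma deriv_bound : ∃ K : ℝ, ∀ t, ‖deriv σ t‖ ≤ K := by
  refine (σ_smooth.continuous_deriv (by simp)).bounded_above_of_compact_support ?_
  refine HasCompactSupport.intro (isCompact_Icc (a := (0 : ℝ)) (b := 1)) fun t ht => ?_
  rw [mem_Icc, not_and_or, not_le, not_le] at ht
  rcases ht with ht | ht
  · have : σ =ᶠ[𝓝 t] fun _ => 0 := by
      filter_upwards [Iio_mem_nhds ht] with s hs
      exact Real.smoothTransition.zero_of_nonpos (le_of_lt hs)
    rw [this.deriv_eq, deriv_const]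
  · have : σ =ᶠ[𝓝 t] fun _ => 1 := by
      filter_upwards [Ioi_mem_nhds ht] with s hs
      exact Real.smoothTransition.one_of_one_le (le_of_lt hs)
    rw [this.deriv_eq, deriv_const]

lemma interp_lip (h : ℤ → ℤ) (hh : ∀ i, |h (i + 1) - h i| ≤ 2) : interp h ∈ Lip := by
  obtain ⟨K, hK⟩ := deriv_bound
  have K0 : 0 ≤ K := (norm_nonneg _).trans (hK 0)
  refine ⟨⟨4 * K, by positivity⟩, lipschitzWith_of_nnnorm_deriv_le
    ((interp_smooth h).differentiable (by simp)) fun t => ?_⟩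
  have hd : ∀ u, HasDerivAt σ (deriv σ u) u := fun u =>
    (σ_smooth.differentiable (by simp) u).hasDerivAt
  set a := ⌊t⌋
  have d1 : HasDerivAt (fun s => σ (s - (a - 1))) (deriv σ (t - (a - 1))) t :=
    (hd _).comp_sub_const t _
  have d2 : HasDerivAt (fun s => σ (s - a)) (deriv σ (t - a)) t := (hd _).comp_sub_const t _
  have d3 : HasDerivAt (loc h a) ((h a - h (a - 1)) * deriv σ (t - (a - 1)) +
      (h (a + 1) - h a) * deriv σ (t - a)) t :=
    ((d1.const_mul _).const_add _).add (d2.const_mul _)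
  rw [← NNReal.coe_le_coe, coe_nnnorm, (interp_loc h t).deriv_eq, d3.deriv]
  have b1 : |(h a - h (a - 1) : ℝ)| ≤ 2 := by
    have := hh (a - 1)
    rw [sub_add_cancel] at this
    exact_mod_cast this
  have b2 : |(h (a + 1) - h a : ℝ)| ≤ 2 := by exact_mod_cast hh a
  refine (norm_add_le _ _).trans ?_
  rw [norm_mul, norm_mul]
  have c1 := mul_le_mul b1 (hK (t - (a - 1))) (norm_nonneg _) (by norm_num)
  have c2 := mul_le_mul b2 (hK (t - a)) (norm_nonneg _) (by norm_num)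
  simp only [Real.norm_eq_abs] at c1 c2 ⊢
  show _ ≤ 4 * K
  linarith

/-! ### Level functions -/

noncomputable def Lam (l : ℤ → ℤ) (t : ℝ) : ℤ := min (l ⌊t⌋) (l ⌈t⌉)

lemma Lam_int (l : ℤ → ℤ) (i : ℤ) : Lam l i = l i := by simp [Lam]

lemma Lam_mid (l : ℤ → ℤ) (i : ℤ) {t : ℝ} (h1 : (i : ℝ) < t) (h2 : t < i + 1) :
    Lam l t = min (l i) (l (i + 1)) := by
  unfold Lam
  rw [Int.floor_eq_iff.2 ⟨h1.le, h2⟩, (Int.ceil_eq_iff (z := i + 1)).2
    ⟨by push_cast; linarith, by push_cast; exact h2.le⟩]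

lemma Lam_local {l : ℤ → ℤ} (hl : ∀ i, |l (i + 1) - l i| ≤ 1) (t : ℝ) :
    ∀ᶠ s in 𝓝 t, Lam l s = Lam l t ∨ Lam l s = Lam l t - 1 := by
  rcases (Int.floor_le t).eq_or_lt with h | h
  · rw [← h, Lam_int]
    generalize ⌊t⌋ = a
    filter_upwards [Ioo_mem_nhds (show (a : ℝ) - 1 < a by linarith)
      (show (a : ℝ) < a + 1 by linarith)] with s hs
    rcases lt_trichotomy s a with e | e | e
    · rw [Lam_mid l (a - 1) (by push_cast; exact hs.1) (by push_cast; linarith), sub_add_cancel]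
      have := hl (a - 1)
      rw [sub_add_cancel, abs_le] at this
      omega
    · rw [e, Lam_int]; exact Or.inl rfl
    · rw [Lam_mid l a e hs.2]
      have := hl a
      rw [abs_le] at this
      omega
  · filter_upwards [Ioo_mem_nhds h (Int.lt_floor_add_one t)] with s hs
    rw [Lam_mid l _ hs.1 hs.2, Lam_mid l _ h (Int.lt_floor_add_one t)]
    exact Or.inl rfl

lemma d2 {l : ℤ → ℤ} (hl : ∀ i, |l (i + 1) - l i| ≤ 1) : D2 {t | Even (Lam l t)} := by
  refine ⟨{t | Even (Lam l t) ∨ ∀ᶠ s in 𝓝 t, ¬ Even (Lam l s)}, closure {t | Even (Lam l t)},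
    ?_, isClosed_closure, ?_⟩
  · rw [isOpen_iff_eventually]
    rintro t (ht | ht)
    · filter_upwards [(Lam_local hl t).eventually_nhds] with s hs
      rcases hs.self_of_nhds with h | h
      · exact Or.inl (h ▸ ht)
      · right
        filter_upwards [hs, Lam_local hl s] with u h1 h2
        rw [Int.even_iff] at ht ⊢
        omega
    · exact ht.eventually_nhds.mono fun s hs => Or.inr hs
  · ext t
    refine ⟨fun h => ⟨Or.inl h, subset_closure h⟩, ?_⟩
    rintro ⟨h | h, h2⟩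
    · exact h
    · exact absurd (mem_closure_iff_frequently.1 h2) (not_frequently.2 h)

lemma shift {l m : ℤ → ℤ} (hl : ∀ i, |l (i + 1) - l i| ≤ 1) (hm : ∀ i, |m (i + 1) - m i| ≤ 1)
    {f : ℝ → ℝ} (hf : Continuous f) (h : {t | Even (Lam l t)} = f ⁻¹' {t | Even (Lam m t)}) :
    ∃ c, ∀ t, Lam m (f t) = Lam l t + c := by
  have he : ∀ t, Even (Lam l t) ↔ Even (Lam m (f t)) := fun t => Set.ext_iff.1 h t
  have : IsLocallyConstant fun t => Lam m (f t) - Lam l t := by
    rw [IsLocallyConstant.iff_eventually_eq]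
    intro t
    filter_upwards [Lam_local hl t, hf.continuousAt.eventually (Lam_local hm (f t))] with s h1 h2
    have e1 := he s
    have e2 := he t
    simp only [Int.even_iff] at e1 e2
    omega
  refine ⟨Lam m (f 0) - Lam l 0, fun t => ?_⟩
  have := this.apply_eq_of_preconnectedSpace t 0
  omega

lemma lam_interp {l m h : ℤ → ℤ} (h1 : ∀ i, m (h i) = l i)
    (h2 : ∀ i, |h (i + 1) - h i| ≤ 1 ∨ (h (i + 1) = h i + 2 ∧ m (h i + 1) = l i ∧ l (i + 1) = l i))
    (t : ℝ) : Lam m (interp h t) = Lam l t := by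
  unfold interp
  rcases (Int.floor_le t).eq_or_lt with e | e
  · have z : σ (t - ⌊t⌋) = 0 := Real.smoothTransition.zero_of_nonpos (by linarith)
    rw [z, mul_zero, add_zero, Lam_int, h1]
    conv_rhs => rw [← e, Lam_int]
  · rw [Lam_mid l _ e (Int.lt_floor_add_one t)]
    have u0 : 0 < σ (t - ⌊t⌋) := Real.smoothTransition.pos_of_pos (by linarith)
    have u1 : σ (t - ⌊t⌋) < 1 :=
      Real.smoothTransition.lt_one_of_lt_one (by linarith [Int.lt_floor_add_one t])
    generalize σ (t - ⌊t⌋) = u at u0 u1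
    generalize ⌊t⌋ = a
    have a1 := h1 a
    have a2 := h1 (a + 1)
    rcases h2 a with h2 | ⟨h2, h3, h4⟩
    · rw [abs_le] at h2
      rcases (show h (a + 1) = h a - 1 ∨ h (a + 1) = h a ∨ h (a + 1) = h a + 1 by omega)
        with e | e | e
      · rw [Lam_mid m (h a - 1) (by rw [e]; push_cast; linarith) (by rw [e]; push_cast; linarith),
          sub_add_cancel, ← e, a1, a2, min_comm]
      · rw [e, sub_self, zero_mul, add_zero, Lam_int, ← a2, ← a1, e, min_self]
      · rw [Lam_mid m (h a) (by rw [e]; push_cast; linarith) (by rw [e]; push_cast; linarith),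
          ← e, a1, a2]
    · rw [h4, min_self]
      rw [h2] at a2 ⊢
      rcases lt_trichotomy (2 * u) 1 with e | e | e
      · rw [Lam_mid m (h a) (by push_cast; linarith) (by push_cast; linarith), a1, h3, min_self]
      · rw [show ((h a : ℝ) + (((h a + 2 : ℤ) : ℝ) - h a) * u) = ((h a + 1 : ℤ) : ℝ) by
          push_cast; linarith, Lam_int, h3]
      · rw [Lam_mid m (h a + 1) (by push_cast; linarith) (by push_cast; linarith), h3,
          show h a + 1 + 1 = h a + 2 by ring, a2, h4, min_self]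

/-! ### The walks -/

def S : ℕ → ℕ
  | 0 => 0
  | n + 1 => S n + 4 * n + 7

lemma S_succ (n : ℕ) : S (n + 1) = S n + 4 * n + 7 := rfl

lemma S_mono : StrictMono S := strictMono_nat_of_lt_succ fun n => by rw [S_succ]; omega

lemma ex_blk (i : ℕ) : ∃ n, i < S (n + 1) := ⟨i, by have := S_mono.le_apply (x := i + 1); omega⟩

noncomputable def blk (i : ℕ) : ℕ := Nat.find (ex_blk i)

lemma blk_lt (i : ℕ) : i < S (blk i) + 4 * blk i + 7 := Nat.find_spec (ex_blk i)

lemma blk_le (i : ℕ) : S (blk i) ≤ i := by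
  rcases h : blk i with _ | k
  · exact Nat.zero_le _
  · exact not_lt.1 (Nat.find_min (ex_blk i) (m := k) (by unfold blk at h; omega))

lemma blk_eq {i n : ℕ} (h1 : S n ≤ i) (h2 : i < S n + 4 * n + 7) : blk i = n := by
  have a1 := blk_le i
  have a2 := blk_lt i
  rw [← S_succ] at h2 a2
  have b1 := S_mono.lt_iff_lt.1 (h1.trans_lt a2)
  have b2 := S_mono.lt_iff_lt.1 (a1.trans_lt h2)
  omega

/-- level at offset `j` of block `n` -/
noncomputable def lev (x : Set ℕ) (n j : ℕ) : ℤ :=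
  if j ≤ 2 * n + 1 then (j : ℤ) - n
  else if j = 2 * n + 2 ∧ n ∉ x then n
  else if j ≤ 2 * n + 5 then n + 1
  else 3 * n + 6 - j

noncomputable def ln (x : Set ℕ) (i : ℕ) : ℤ := lev x (blk i) (i - S (blk i))

lemma ln_eq (x : Set ℕ) (n j : ℕ) (h : j ≤ 4 * n + 7) : ln x (S n + j) = lev x n j := by
  unfold ln
  rcases h.eq_or_lt with rfl | h
  · rw [blk_eq (n := n + 1) (by rw [S_succ]; omega) (by rw [S_succ]; omega), S_succ]
    unfold lev
    split_ifs <;> omega
  · rw [blk_eq (n := n) (by omega) (by omega), Nat.add_sub_cancel_left]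

lemma decomp (i : ℕ) : ∃ n j, j < 4 * n + 7 ∧ i = S n + j :=
  ⟨blk i, i - S (blk i), by have := blk_lt i; omega, by have := blk_le i; omega⟩

lemma ln_step (x : Set ℕ) (i : ℕ) : |ln x (i + 1) - ln x i| ≤ 1 := by
  obtain ⟨n, j, hj, rfl⟩ := decomp i
  rw [add_assoc, ln_eq x n _ (by omega), ln_eq x n _ (by omega), abs_le]
  unfold lev
  split_ifs <;> omega

lemma ln_peak (x : Set ℕ) (n i : ℕ) (h : (n : ℤ) + 1 ≤ ln x i) : S n + 2 * n + 1 ≤ i := by
  obtain ⟨k, j, hj, rfl⟩ := decomp i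
  rw [ln_eq x k _ (by omega)] at h
  rcases lt_trichotomy k n with e | rfl | e
  · unfold lev at h
    split_ifs at h <;> omega
  · unfold lev at h
    split_ifs at h <;> omega
  · have := S_mono.monotone (show n + 1 ≤ k from e)
    rw [S_succ] at this
    omega

lemma ln_valley (x : Set ℕ) (n i : ℕ) (h : ln x i ≤ -(n : ℤ)) : S n ≤ i + 1 ∧
    (ln x i ≤ -(n : ℤ) - 1 → S (n + 1) ≤ i) := by
  obtain ⟨k, j, hj, rfl⟩ := decomp i
  rw [ln_eq x k _ (by omega)] at h ⊢
  have : n ≤ k := by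
    unfold lev at h
    split_ifs at h <;> omega
  refine ⟨by have := S_mono.monotone this; omega, fun h' => ?_⟩
  have : n + 1 ≤ k := by
    unfold lev at h'
    split_ifs at h' <;> omega
  have := S_mono.monotone this
  omega

lemma ln_anti (x : Set ℕ) {n : ℕ} (hn : n ∈ x) {i k : ℕ} (h1 : S n + 2 * n + 1 ≤ i) (h2 : i ≤ k)
    (h3 : k ≤ S (n + 1)) : ln x k ≤ ln x i := by
  rw [S_succ] at h3
  rw [show i = S n + (i - S n) by omega, show k = S n + (k - S n) by omega,
    ln_eq x n _ (by omega), ln_eq x n _ (by omega)]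
  unfold lev
  simp only [hn, not_true, and_false, if_false]
  split_ifs <;> omega

noncomputable def lz (x : Set ℕ) (i : ℤ) : ℤ := ln x i.toNat

lemma lz_step (x : Set ℕ) (i : ℤ) : |lz x (i + 1) - lz x i| ≤ 1 := by
  unfold lz
  rcases le_or_gt 0 i with h | h
  · rw [show (i + 1).toNat = i.toNat + 1 by omega]
    exact ln_step x _
  · rw [show (i + 1).toNat = i.toNat by omega]
    simp

lemma Lam_nat (x : Set ℕ) (i : ℕ) : Lam (lz x) i = ln x i := by
  rw [← Int.cast_natCast, Lam_int]; rfl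

lemma Lam_peak (x : Set ℕ) (n : ℕ) (t : ℝ) (h : (n : ℤ) + 1 ≤ Lam (lz x) t) :
    ((S n + 2 * n + 1 : ℕ) : ℝ) ≤ t := by
  have h1 := ln_peak x n _ (h.trans (min_le_left _ _))
  have h2 : ((S n + 2 * n + 1 : ℕ) : ℤ) ≤ ⌊t⌋ := by omega
  exact_mod_cast Int.le_floor.1 h2

lemma Lam_valley (x : Set ℕ) (n : ℕ) (t : ℝ) (h : Lam (lz x) t ≤ -(n : ℤ) - 1) :
    ((S n + 4 * n + 6 : ℕ) : ℝ) < t := by
  have h0 := Int.floor_le_ceil t
  have h2 : ((S n + 4 * n + 6 : ℕ) : ℤ) < ⌈t⌉ := by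
    rcases min_le_iff.1 h with h | h
    · have := (ln_valley x n _ (h.trans (by omega))).2 h
      rw [S_succ] at this
      omega
    · have := (ln_valley x n _ (h.trans (by omega))).2 h
      rw [S_succ] at this
      omega
  exact_mod_cast Int.lt_ceil.1 h2

lemma Lam_anti (x : Set ℕ) {n : ℕ} (hn : n ∈ x) {s t : ℝ} (h1 : ((S n + 2 * n + 1 : ℕ) : ℝ) ≤ s)
    (h2 : s ≤ t) (h3 : t ≤ (S (n + 1) : ℕ)) : Lam (lz x) t ≤ Lam (lz x) s := by
  have a1 : ((S n + 2 * n + 1 : ℕ) : ℤ) ≤ ⌊s⌋ := Int.le_floor.2 (by exact_mod_cast h1)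
  have a2 : ⌈t⌉ ≤ ((S (n + 1) : ℕ) : ℤ) := Int.ceil_le.2 (by exact_mod_cast h3)
  have a3 := Int.floor_le_floor h2
  have a4 := Int.ceil_le_ceil h2
  have a5 := Int.floor_le_ceil s
  have a6 := Int.floor_le_ceil t
  exact min_le_min (ln_anti x hn (by omega) (by omega) (by omega))
    (ln_anti x hn (by omega) (by omega) (by omega))

lemma ln_P (x : Set ℕ) (n : ℕ) : ln x (S n + 2 * n + 1) = n + 1 := by
  rw [add_assoc, ln_eq x n _ (by omega)]
  unfold lev
  split_ifs <;> omega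

lemma ln_V (x : Set ℕ) (n : ℕ) : ln x (S n) = -n := by
  rw [← add_zero (S n), ln_eq x n _ (by omega)]
  unfold lev
  split_ifs <;> omega

lemma ivt {f : ℝ → ℝ} (hf : Continuous f) {a b v : ℝ} (hab : a ≤ b) (h1 : f a ≤ v) (h2 : v ≤ f b) :
    ∃ t, a ≤ t ∧ t ≤ b ∧ f t = v := by
  obtain ⟨t, ht, e⟩ := intermediate_value_Icc hab hf.continuousOn ⟨h1, h2⟩
  exact ⟨t, ht.1, ht.2, e⟩

lemma nonred {x y : Set ℕ} {f : ℝ → ℝ} (hf : Continuous f)
    (h : {t | Even (Lam (lz x) t)} = f ⁻¹' {t | Even (Lam (lz y) t)}) : (x \ y).Finite := by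
  obtain ⟨c, hc⟩ := shift (lz_step x) (lz_step y) hf h
  obtain ⟨N, hN⟩ := exists_nat_ge (f 0)
  have hS : ∀ m, N ≤ m → f 0 ≤ S m := fun m hm =>
    hN.trans (by exact_mod_cast hm.trans S_mono.le_apply)
  rcases lt_trichotomy c 0 with c0 | rfl | c0
  · exfalso
    obtain ⟨d, rfl⟩ : ∃ d : ℕ, c = -(d + 1) := ⟨(-c - 1).toNat, by omega⟩
    have h1 := Lam_valley y (N + d) (f (S N : ℕ)) (by rw [hc, Lam_nat, ln_V]; omega)
    obtain ⟨t, -, t2, t3⟩ := ivt hf (a := 0) (b := (S N : ℕ))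
      (v := ((S (N + d) + 2 * (N + d) + 1 : ℕ) : ℝ)) (Nat.cast_nonneg _)
      ((hS (N + d) (by omega)).trans (Nat.cast_le.2 (by omega)))
      (le_trans (Nat.cast_le.2 (by omega)) h1.le)
    have h2 := hc t
    rw [t3, Lam_nat, ln_P] at h2
    have h3 := (Lam_peak x N t (by omega)).trans t2
    have := Nat.cast_le.1 h3
    omega
  · by_contra hinf
    obtain ⟨n, ⟨hx, hy⟩, hn⟩ := (Set.not_finite.1 hinf).exists_gt N
    simp only [add_zero] at hc
    have h1 := Lam_valley y n (f (S (n + 1) : ℕ)) (by rw [hc, Lam_nat, ln_V]; omega)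
    obtain ⟨s, -, s2, s3⟩ := ivt hf (a := 0) (b := (S (n + 1) : ℕ))
      (v := ((S n + 2 * n + 1 : ℕ) : ℝ)) (Nat.cast_nonneg _)
      ((hS n hn.le).trans (Nat.cast_le.2 (by omega)))
      (le_trans (Nat.cast_le.2 (by omega)) h1.le)
    have s4 := Lam_peak x n s (by rw [← hc, s3, Lam_nat, ln_P])
    obtain ⟨t, t1, t2, t3⟩ := ivt hf (v := ((S n + (2 * n + 2) : ℕ) : ℝ)) s2
      (by rw [s3]; exact Nat.cast_le.2 (by omega)) (le_trans (Nat.cast_le.2 (by omega)) h1.le)
    obtain ⟨u, u1, u2, u3⟩ := ivt hf (v := ((S n + (2 * n + 3) : ℕ) : ℝ)) t2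
      (by rw [t3]; exact Nat.cast_le.2 (by omega)) (le_trans (Nat.cast_le.2 (by omega)) h1.le)
    have := Lam_anti x hx (s4.trans t1) u1 u2
    rw [← hc, ← hc, t3, u3, Lam_nat, Lam_nat, ln_eq y n _ (by omega), ln_eq y n _ (by omega)] at this
    unfold lev at this
    simp only [hy, not_false_iff, and_true] at this
    split_ifs at this <;> omega
  · exfalso
    obtain ⟨d, rfl⟩ : ∃ d : ℕ, c = d + 1 := ⟨(c - 1).toNat, by omega⟩
    have h1 := Lam_peak y (N + d + 1) (f (S N + 2 * N + 1 : ℕ)) (by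
      rw [hc, Lam_nat, ln_P]; omega)
    obtain ⟨t, -, t2, t3⟩ := ivt hf (a := 0) (b := (S N + 2 * N + 1 : ℕ))
      (v := ((S (N + d + 1) : ℕ) : ℝ)) (Nat.cast_nonneg _) (hS _ (by omega))
      (le_trans (Nat.cast_le.2 (by omega)) h1)
    have h2 := hc t
    rw [t3, Lam_nat, ln_V] at h2
    have h3 := (Lam_valley x N t (by omega)).trans_le t2
    have := Nat.cast_lt.1 h3
    omega

/-- offset map inside a block -/
noncomputable def off (x y : Set ℕ) (n j : ℕ) : ℕ :=
  if n ∉ x ∧ n ∈ y then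
    (if j = 2 * n + 2 then 2 * n else if j = 2 * n + 3 then 2 * n + 1
      else if j = 2 * n + 4 then 2 * n + 3 else j)
  else j

noncomputable def hn (x y : Set ℕ) (N i : ℕ) : ℕ :=
  if i ≤ S N then S N + (N + ln x i).toNat else S (blk i) + off x y (blk i) (i - S (blk i))

lemma hn_eq (x y : Set ℕ) (N n j : ℕ) (h : N ≤ n) (hj : j ≤ 4 * n + 7) :
    hn x y N (S n + j) = S n + off x y n j := by
  unfold hn
  have := S_mono.monotone h
  split_ifs with h1
  · obtain rfl : j = 0 := by omega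
    obtain rfl : N = n := S_mono.injective (by omega)
    rw [Nat.add_zero, ln_V]
    have : ((N : ℤ) + -(N : ℤ)).toNat = 0 := by simp
    rw [this]
    unfold off
    split_ifs <;> first | omega | contradiction
  · rcases hj.eq_or_lt with rfl | h
    · rw [blk_eq (n := n + 1) (by rw [S_succ]; omega) (by rw [S_succ]; omega), S_succ]
      unfold off
      split_ifs <;> omega
    · rw [blk_eq (n := n) (by omega) (by omega), Nat.add_sub_cancel_left]

lemma ln_bd (x : Set ℕ) {N i : ℕ} (h : i ≤ S N) : -(N : ℤ) ≤ ln x i ∧ ln x i ≤ N := by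
  constructor
  · by_contra hc
    have := (ln_valley x N i (by omega)).2 (by omega)
    rw [S_succ] at this
    omega
  · by_contra hc
    have := ln_peak x N i (by omega)
    omega

lemma hn_lev {x y : Set ℕ} {N : ℕ} (hN : ∀ n, N ≤ n → n ∈ x → n ∈ y) (i : ℕ) :
    ln y (hn x y N i) = ln x i := by
  by_cases h : i ≤ S N
  · unfold hn
    have := ln_bd x h
    rw [if_pos h, ln_eq y N _ (by omega)]
    unfold lev
    split_ifs <;> omega
  · obtain ⟨n, j, hj, rfl⟩ := decomp i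
    have hn' : N ≤ n := by
      have : S N < S (n + 1) := by rw [S_succ]; omega
      have := S_mono.lt_iff_lt.1 this
      omega
    have := hN n hn'
    rw [hn_eq x y N n j hn' hj.le, ln_eq x n j hj.le, ln_eq y n _ (by unfold off; split_ifs <;> omega)]
    unfold lev off
    by_cases hx : n ∈ x <;> by_cases hy : n ∈ y <;>
      simp only [hx, hy, not_true, not_false_iff, and_true, and_false, if_true,
        if_false, forall_const] at this ⊢ <;> split_ifs <;> omega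

lemma hn_step (x y : Set ℕ) (N i : ℕ) :
    |(hn x y N (i + 1) : ℤ) - hn x y N i| ≤ 1 ∨ (hn x y N (i + 1) = hn x y N i + 2 ∧
      ln y (hn x y N i + 1) = ln x i ∧ ln x (i + 1) = ln x i) := by
  by_cases h : i + 1 ≤ S N
  · left
    unfold hn
    have h1 := ln_bd x h
    have h2 := ln_bd x (show i ≤ S N by omega)
    have h3 := ln_step x i
    rw [if_pos h, if_pos (show i ≤ S N by omega)]
    rw [abs_le] at h3 ⊢
    omega
  · obtain ⟨n, j, hj, rfl⟩ := decomp i
    have hn' : N ≤ n := by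
      have : S N < S (n + 1) := by rw [S_succ]; omega
      have := S_mono.lt_iff_lt.1 this
      omega
    rw [add_assoc, hn_eq x y N n j hn' hj.le, hn_eq x y N n (j + 1) hn' hj, ln_eq x n j hj.le,
      ln_eq x n (j + 1) hj, add_assoc (S n) (off x y n j) 1, ln_eq y n _ (by unfold off; split_ifs <;> omega), abs_le]
    unfold lev off
    by_cases hx : n ∈ x <;> by_cases hy : n ∈ y <;>
      simp only [hx, hy, not_true, not_false_iff, and_true, and_false, if_true,
        if_false] <;> split_ifs <;> omega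

lemma red {x y : Set ℕ} (h : (x \ y).Finite) : ∃ f, f ∈ Lip ∧ f ∈ Smooth ∧
    {t | Even (Lam (lz x) t)} = f ⁻¹' {t | Even (Lam (lz y) t)} := by
  obtain ⟨M, hM⟩ := h.bddAbove
  have hN : ∀ n, M + 1 ≤ n → n ∈ x → n ∈ y := fun n h1 h2 => by_contra fun h3 => by
    have := hM ⟨h2, h3⟩
    omega
  let g : ℤ → ℤ := fun i => hn x y (M + 1) i.toNat
  have g2 : ∀ i, |g (i + 1) - g i| ≤ 1 ∨
      (g (i + 1) = g i + 2 ∧ lz y (g i + 1) = lz x i ∧ lz x (i + 1) = lz x i) := by
    intro i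
    unfold lz
    simp only [g]
    rcases le_or_gt 0 i with h | h
    · rw [show (i + 1).toNat = i.toNat + 1 by omega]
      refine (hn_step x y (M + 1) i.toNat).imp id fun h => ⟨by omega, ?_, h.2.2⟩
      rw [← h.2.1]
      congr 1
    · rw [show (i + 1).toNat = i.toNat by omega]
      simp
  refine ⟨interp g, interp_lip g fun i => ?_, interp_smooth g, ?_⟩
  · rcases g2 i with h | h
    · exact h.trans (by norm_num)
    · rw [h.1]; simp
  · ext t
    show Even _ ↔ Even (Lam (lz y) (interp g t))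
    rw [lam_interp (l := lz x) (fun i => hn_lev hN _) g2]

/-- Both questions have a positive answer. -/
theorem result : Embeds Lip ∧ Embeds Smooth := by
  refine ⟨⟨fun x => {t | Even (Lam (lz x) t)}, fun x => d2 (lz_step x), fun x y => ⟨fun h => ?_, ?_⟩⟩,
    ⟨fun x => {t | Even (Lam (lz x) t)}, fun x => d2 (lz_step x), fun x y => ⟨fun h => ?_, ?_⟩⟩⟩
  · obtain ⟨f, h1, -, h3⟩ := red h
    exact ⟨f, h1, h3⟩
  · rintro ⟨f, ⟨K, hK⟩, h⟩
    exact nonred hK.continuous h
  · obtain ⟨f, -, h2, h3⟩ := red h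
    exact ⟨f, h2, h3⟩
  · rintro ⟨f, hf, h⟩
    exact nonred (ContDiff.continuous (show ContDiff ℝ ∞ f from hf)) h

end Pool.Agent.Results.MP_b9d480_lc.Both
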